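import Pool.Agent.helper5.LDH.Spec

set_option autoImplicit false

open Complex MeasureTheory

namespace Pool.Agent.LDH

/-- the telescoping function -/
noncomputable def SUMH_G (K : ℝ) (h : ℕ) : ℝ := Real.sqrt ((h : ℝ) / K) / (1 + Real.sqrt ((h : ℝ) / K))

theorem SUMH_pt {s x : ℝ} (hs : -(1 / 2) ≤ s) (hs' : s ≤ 1 / 2) (hx : 0 < x) :
    x ^ s * Real.exp (-x ^ 2) ≤ 2 / (Real.sqrt x * (1 + x)) := by
  have hr : 0 < Real.sqrt x := Real.sqrt_pos.mpr hx
  have h1 : x ^ s ≤ (1 + x) / Real.sqrt x := by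
    rcases le_total x 1 with h | h
    · have h2 : x ^ s ≤ x ^ (-(1 / 2) : ℝ) := Real.rpow_le_rpow_of_exponent_ge hx h hs
      have h3 : x ^ (-(1 / 2) : ℝ) = 1 / Real.sqrt x := by
        rw [Real.rpow_neg hx.le, ← Real.sqrt_eq_rpow, one_div]
      rw [h3] at h2
      refine h2.trans ?_
      gcongr
      linarith
    · have h2 : x ^ s ≤ x ^ (1 / 2 : ℝ) := Real.rpow_le_rpow_of_exponent_le h hs'
      rw [← Real.sqrt_eq_rpow] at h2
      refine h2.trans ?_
      rw [le_div_iff₀ hr, Real.mul_self_sqrt hx.le]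
      linarith
  have h4 : Real.exp (-x ^ 2) ≤ 1 / (1 + x ^ 2) := by
    rw [Real.exp_neg, ← one_div]
    have := Real.add_one_le_exp (x ^ 2)
    have h5 : 0 < 1 + x ^ 2 := by positivity
    exact one_div_le_one_div_of_le h5 (by linarith)
  have h6 : x ^ s * Real.exp (-x ^ 2) ≤ (1 + x) / Real.sqrt x * (1 / (1 + x ^ 2)) :=
    mul_le_mul h1 h4 (Real.exp_pos _).le (by positivity)
  refine h6.trans ?_
  rw [div_mul_div_comm, mul_one, div_le_div_iff₀ (by positivity) (by positivity)]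
  have h7 : (1 + x) * (1 + x) ≤ 2 * (1 + x ^ 2) := by nlinarith [sq_nonneg (x - 1)]
  calc (1 + x) * (Real.sqrt x * (1 + x)) = Real.sqrt x * ((1 + x) * (1 + x)) := by ring
    _ ≤ Real.sqrt x * (2 * (1 + x ^ 2)) := mul_le_mul_of_nonneg_left h7 hr.le
    _ = 2 * (Real.sqrt x * (1 + x ^ 2)) := by ring

theorem SUMH_tel {K : ℝ} (hK : 0 < K) (h : ℕ) :
    1 / (Real.sqrt (((h + 1 : ℕ) : ℝ) / K) * (1 + ((h + 1 : ℕ) : ℝ) / K)) ≤
      4 * K * (SUMH_G K (h + 1) - SUMH_G K h) := by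
  unfold SUMH_G
  set a := Real.sqrt ((h : ℝ) / K) with ha
  set b := Real.sqrt (((h + 1 : ℕ) : ℝ) / K) with hb
  have hh : (0 : ℝ) ≤ (h : ℝ) / K := by positivity
  have hh' : (0 : ℝ) ≤ ((h + 1 : ℕ) : ℝ) / K := by positivity
  have ha0 : 0 ≤ a := Real.sqrt_nonneg _
  have hb0 : 0 < b := Real.sqrt_pos.mpr (by positivity)
  have ha2 : a * a = (h : ℝ) / K := Real.mul_self_sqrt hh
  have hb2 : b * b = ((h + 1 : ℕ) : ℝ) / K := Real.mul_self_sqrt hh'
  have hab : a ≤ b := Real.sqrt_le_sqrt (by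
    have : (h : ℝ) ≤ ((h + 1 : ℕ) : ℝ) := by exact_mod_cast Nat.le_succ h
    gcongr)
  have hd : K * (b * b - a * a) = 1 := by
    rw [ha2, hb2]
    push_cast
    field_simp
    ring
  rw [← hb2]
  have e1 : b / (1 + b) - a / (1 + a) = (b - a) / ((1 + b) * (1 + a)) := by
    field_simp
    ring
  rw [e1, ← mul_div_assoc, div_le_div_iff₀ (by positivity) (by positivity)]
  have hba : 0 ≤ b - a := by linarith
  have k1 : 1 ≤ 2 * K * b * (b - a) := by
    have : K * (b * b - a * a) ≤ 2 * K * b * (b - a) := by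
      have : 0 ≤ K * ((b - a) * (b - a)) := by positivity
      nlinarith
    linarith
  have k2 : (1 + b) * (1 + a) ≤ 2 * (1 + b * b) := by
    nlinarith [sq_nonneg (b - 1)]
  have k3 : 0 ≤ 1 + b * b := by positivity
  calc 1 * ((1 + b) * (1 + a)) ≤ 2 * (1 + b * b) := by linarith
    _ ≤ (2 * K * b * (b - a)) * (2 * (1 + b * b)) := by
        have : 0 ≤ 2 * (1 + b * b) := by positivity
        nlinarith
    _ = 4 * K * (b - a) * (b * (1 + b * b)) := by ring

theorem SUMH : SUMH_stmt := by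
  refine ⟨8, by norm_num, ?_⟩
  intro s K M hs hs' hK1
  have hK : 0 < K := by linarith
  have hterm : ∀ h : ℕ, ((h + 1 : ℕ) : ℝ) ^ s * Real.exp (-(((h + 1 : ℕ) : ℝ) / K) ^ 2) ≤
      8 * K ^ (1 + s) * (SUMH_G K (h + 1) - SUMH_G K h) := by
    intro h
    have hx : 0 < ((h + 1 : ℕ) : ℝ) / K := by positivity
    have h1 := SUMH_pt hs hs' hx
    have h2 := SUMH_tel hK h
    have h3 : ((h + 1 : ℕ) : ℝ) ^ s = K ^ s * (((h + 1 : ℕ) : ℝ) / K) ^ s := by
      rw [← Real.mul_rpow hK.le hx.le]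
      congr 1
      field_simp
    rw [h3, mul_assoc]
    have hKs : 0 < K ^ s := Real.rpow_pos_of_pos hK _
    calc K ^ s * ((((h + 1 : ℕ) : ℝ) / K) ^ s * Real.exp (-(((h + 1 : ℕ) : ℝ) / K) ^ 2))
        ≤ K ^ s * (2 / (Real.sqrt (((h + 1 : ℕ) : ℝ) / K) * (1 + ((h + 1 : ℕ) : ℝ) / K))) :=
          mul_le_mul_of_nonneg_left h1 hKs.le
      _ = 2 * K ^ s * (1 / (Real.sqrt (((h + 1 : ℕ) : ℝ) / K) * (1 + ((h + 1 : ℕ) : ℝ) / K))) := by ring
      _ ≤ 2 * K ^ s * (4 * K * (SUMH_G K (h + 1) - SUMH_G K h)) :=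
          mul_le_mul_of_nonneg_left h2 (by positivity)
      _ = 8 * K ^ (1 + s) * (SUMH_G K (h + 1) - SUMH_G K h) := by
          rw [Real.rpow_add hK, Real.rpow_one]
          ring
  have hA : 0 ≤ 8 * K ^ (1 + s) := by positivity
  have hsum : ∀ m : ℕ, ∑ h ∈ Finset.Ico 1 (m + 1), (h : ℝ) ^ s * Real.exp (-((h : ℝ) / K) ^ 2) ≤
      8 * K ^ (1 + s) * SUMH_G K m := by
    intro m
    induction m with
    | zero =>
      simp [SUMH_G]
    | succ m ih =>
      rw [Finset.sum_Ico_succ_top (by omega)]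
      have := hterm m
      linarith
  have hG : ∀ m : ℕ, SUMH_G K m ≤ 1 := by
    intro m
    unfold SUMH_G
    rw [div_le_one (by positivity)]
    linarith
  cases M with
  | zero =>
    simp
    positivity
  | succ m =>
    have e : Finset.Ioo 0 (m + 1) = Finset.Ico 1 (m + 1) := by
      ext h
      simp only [Finset.mem_Ioo, Finset.mem_Ico]
      omega
    rw [e]
    refine (hsum m).trans ?_
    calc 8 * K ^ (1 + s) * SUMH_G K m ≤ 8 * K ^ (1 + s) * 1 := mul_le_mul_of_nonneg_left (hG m) hA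
      _ = 8 * K ^ (1 + s) := mul_one _

end Pool.Agent.LDH
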